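import Mathlib
import Pool.Agent.X126.PreA

set_option autoImplicit false
set_option maxRecDepth 100000

open Polynomial Pool.Agent.X126.Pre

namespace Pool.Agent.Results.MP_87d29b_co.PrismCounterexample

/-- The adjacency matrix of the graph. -/
def a : Fin 6 → Fin 6 → ℤ := ![![0, 1, 1, 1, 0, 0], ![1, 0, 1, 0, 1, 0], ![1, 1, 0, 0, 0, 1], ![1, 0, 0, 0, 1, 1], ![0, 1, 0, 1, 0, 1], ![0, 0, 1, 1, 1, 0]]

def m2 : Fin 6 → Fin 6 → ℤ := ![![3, 1, 1, 0, 2, 2], ![1, 3, 1, 2, 0, 2], ![1, 1, 3, 2, 2, 0], ![0, 2, 2, 3, 1, 1], ![2, 0, 2, 1, 3, 1], ![2, 2, 0, 1, 1, 3]]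

def m3 : Fin 6 → Fin 6 → ℤ := ![![2, 6, 6, 7, 3, 3], ![6, 2, 6, 3, 7, 3], ![6, 6, 2, 3, 3, 7], ![7, 3, 3, 2, 6, 6], ![3, 7, 3, 6, 2, 6], ![3, 3, 7, 6, 6, 2]]

def m4 : Fin 6 → Fin 6 → ℤ := ![![19, 11, 11, 8, 16, 16], ![11, 19, 11, 16, 8, 16], ![11, 11, 19, 16, 16, 8], ![8, 16, 16, 19, 11, 11], ![16, 8, 16, 11, 19, 11], ![16, 16, 8, 11, 11, 19]]

/-- The graph. -/
def G : SimpleGraph (Fin 6) where
  Adj i j := a i j = 1
  symm := ⟨by decide⟩
  loopless := ⟨by decide⟩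

instance : DecidableRel G.Adj := fun i j => inferInstanceAs (Decidable (a i j = 1))

theorem conn : G.Connected := connected_of_B G 2 (by decide)

theorem adj_eq : G.adjMatrix ℤ = Matrix.of a := by
  have h : ∀ i j, (if a i j = 1 then (1:ℤ) else 0) = a i j := by decide
  ext i j
  rw [SimpleGraph.adjMatrix_apply]
  exact h i j

theorem e2 : G.adjMatrix ℤ ^ 2 = Matrix.of m2 := by
  rw [pow_two, adj_eq, of_mul]
  congr 1
  decide

theorem e3 : G.adjMatrix ℤ ^ 3 = Matrix.of m3 := by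
  rw [pow_succ, e2, adj_eq, of_mul]
  congr 1
  decide

theorem e4 : G.adjMatrix ℤ ^ 4 = Matrix.of m4 := by
  rw [pow_succ, e3, adj_eq, of_mul]
  congr 1
  decide

theorem t0 : Matrix.trace (G.adjMatrix ℝ ^ 0) = 6 := by
  rw [pow_zero, Matrix.trace_one]; simp

theorem t1 : Matrix.trace (G.adjMatrix ℝ ^ 1) = 0 := by
  rw [trace_cast, pow_one, adj_eq, of_trace, show trF a = 0 by decide]; norm_num

theorem t2 : Matrix.trace (G.adjMatrix ℝ ^ 2) = 18 := by
  rw [trace_cast, e2, of_trace, show trF m2 = 18 by decide]; norm_num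

theorem t3 : Matrix.trace (G.adjMatrix ℝ ^ 3) = 12 := by
  rw [trace_cast, e3, of_trace, show trF m3 = 12 by decide]; norm_num

theorem t4 : Matrix.trace (G.adjMatrix ℝ ^ 4) = 114 := by
  rw [trace_cast, e4, of_trace, show trF m4 = 114 by decide]; norm_num

theorem t5 : Matrix.trace (G.adjMatrix ℝ ^ 5) = 180 := by
  have h : G.adjMatrix ℤ ^ 5 = G.adjMatrix ℤ ^ 3 * G.adjMatrix ℤ ^ 2 := by rw [← pow_add]
  rw [trace_cast, h, e3, e2, of_mul, of_trace,
    show trF (mulF m3 m2) = 180 by decide]; norm_num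

theorem t6 : Matrix.trace (G.adjMatrix ℝ ^ 6) = 858 := by
  have h : G.adjMatrix ℤ ^ 6 = G.adjMatrix ℤ ^ 3 * G.adjMatrix ℤ ^ 3 := by rw [← pow_add]
  rw [trace_cast, h, e3, of_mul, of_trace,
    show trF (mulF m3 m3) = 858 by decide]; norm_num

/-- coefficients of the predistance polynomials -/
noncomputable def c : ℕ → Fin 4 → ℝ
  | 0 => ![1, 0, 0, 0]
  | 1 => ![0, 1, 0, 0]
  | 2 => ![-18 / 13, -4 / 13, 6 / 13, 0]
  | 3 => ![5 / 13, -71 / 65, -17 / 65, 1 / 5]
  | _ => 0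

noncomputable def p (i : ℕ) : ℝ[X] := P 4 (c i)

theorem degs : ∀ i ≤ 3, (p i).degree = (i : WithBot ℕ) := by
  intro i hi
  interval_cases i
  · have h : p 0 = C (1 : ℝ) * X ^ 0 := by
      simp [p, P, c, Fin.sum_univ_succ]
    rw [h]
    compute_degree!
  · have h : p 1 = C (0 : ℝ) * X ^ 0 + C (1 : ℝ) * X ^ 1 := by
      simp [p, P, c, Fin.sum_univ_succ]; try ring
    rw [h]
    compute_degree!
  · have h : p 2 = C (-18 / 13 : ℝ) * X ^ 0 + C (-4 / 13 : ℝ) * X ^ 1 + C (6 / 13 : ℝ) * X ^ 2 := by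
      simp [p, P, c, Fin.sum_univ_succ]; try ring
    rw [h]
    compute_degree!
  · have h : p 3 = C (5 / 13 : ℝ) * X ^ 0 + C (-71 / 65 : ℝ) * X ^ 1 + C (-17 / 65 : ℝ) * X ^ 2 + C (1 / 5 : ℝ) * X ^ 3 := by
      simp [p, P, c, Fin.sum_univ_succ]; try ring
    rw [h]
    compute_degree!

theorem forms : ∀ i ≤ 3, ∀ j ≤ 3, form G (p i) (p j) = if i = j then (p i).eval 3 else 0 := by
  intro i hi j hj
  have hform : form G (p i) (p j) = (∑ s, ∑ t, c i s * c j t *
      Matrix.trace ((G.adjMatrix ℝ) ^ ((s : ℕ) + (t : ℕ)))) / (Fintype.card (Fin 6) : ℝ) := form_P G _ _ _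
  have heval : (p i).eval 3 = ∑ s, c i s * 3 ^ (s : ℕ) := by
    unfold p P
    rw [eval_finsetSum]
    refine Finset.sum_congr rfl fun s _ => ?_
    simp
  rw [hform, heval]
  interval_cases i <;> interval_cases j <;>
    simp [c, Fin.sum_univ_succ, t0, t1, t2, t3, t4, t5, t6] <;> norm_num

theorem vec_cast (l : ℤ) (v : Fin 6 → ℤ) (h : ∀ i, ∑ j, a i j * v j = l * v i)
    (w : Fin 6 → ℝ) (hw : w = fun i => (v i : ℝ)) : (G.adjMatrix ℝ).mulVec w = (l : ℝ) • w := by
  subst hw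
  funext i
  rw [adj_cast, adj_eq]
  have h2 := congrArg (fun z : ℤ => (z : ℝ)) (h i)
  simp only [Matrix.mulVec, dotProduct, Matrix.map_apply, Matrix.of_apply, Pi.smul_apply, smul_eq_mul]
  push_cast at h2
  simpa using h2

theorem spec : spectrum ℝ (G.adjMatrix ℝ) = {3, 1, 0, -2} := by
  apply Set.Subset.antisymm
  · intro lam hlam
    have hq : aeval (G.adjMatrix ℝ) ((X - C (3)) * (X - C (1)) * (X - C (0)) * (X - C (-2)) : ℝ[X]) = 0 := by
      have hZ : G.adjMatrix ℤ ^ 4 = (0 : ℤ) • G.adjMatrix ℤ ^ 0 + (-6 : ℤ) • G.adjMatrix ℤ ^ 1 + (5 : ℤ) • G.adjMatrix ℤ ^ 2 + (2 : ℤ) • G.adjMatrix ℤ ^ 3 := by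
        rw [e4, e3, e2, pow_one, pow_zero, adj_eq]
        ext i j
        simp only [Matrix.add_apply, Matrix.smul_apply, Matrix.of_apply, Matrix.one_apply]
        revert i j
        decide
      have hR : G.adjMatrix ℝ ^ 4 = (0 : ℝ) • G.adjMatrix ℝ ^ 0 + (-6 : ℝ) • G.adjMatrix ℝ ^ 1 + (5 : ℝ) • G.adjMatrix ℝ ^ 2 + (2 : ℝ) • G.adjMatrix ℝ ^ 3 := by
        have h2 := congrArg (Int.castRingHom ℝ).mapMatrix hZ
        simp only [map_add, map_pow, map_zsmul] at h2
        have h3 : (Int.castRingHom ℝ).mapMatrix (G.adjMatrix ℤ) = G.adjMatrix ℝ := (adj_cast G).symm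
        rw [h3] at h2
        rw [h2]
        simp only [← Int.cast_smul_eq_zsmul ℝ]
        norm_num
      have h4 : ((X - C (3)) * (X - C (1)) * (X - C (0)) * (X - C (-2)) : ℝ[X]) = X ^ 4 - (C (0 : ℝ) * X ^ 0 + C (-6 : ℝ) * X ^ 1 + C (5 : ℝ) * X ^ 2 + C (2 : ℝ) * X ^ 3) := by
        simp only [map_neg, map_ofNat, map_one, map_zero]
        ring
      rw [h4]
      simp only [map_sub, map_add, map_mul, map_pow, aeval_X, aeval_C, ← Algebra.smul_def]
      rw [hR, sub_self]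
    have h5 := spec_sub G _ hq lam hlam
    simp only [eval_mul, eval_sub, eval_X, eval_C, mul_eq_zero, sub_eq_zero] at h5
    simp only [Set.mem_insert_iff, Set.mem_singleton_iff]
    tauto
  · intro lam hlam
    simp only [Set.mem_insert_iff, Set.mem_singleton_iff] at hlam
    rcases hlam with rfl | rfl | rfl | rfl
    · have h1 : ∀ i, ∑ j, a i j * (![1, 1, 1, 1, 1, 1] : Fin 6 → ℤ) j = (3) * (![1, 1, 1, 1, 1, 1] : Fin 6 → ℤ) i := by decide
      refine mem_spec_of_vec G _ (fun i => ((![1, 1, 1, 1, 1, 1] : Fin 6 → ℤ) i : ℝ)) (fun h => ?_) ?_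
      · have := congrFun h 0
        simp at this
      · have h2 := vec_cast (3) _ h1 _ rfl
        simpa only [Int.cast_ofNat, Int.cast_neg, Int.cast_one, Int.cast_zero] using h2
    · have h1 : ∀ i, ∑ j, a i j * (![-1, -1, -1, 1, 1, 1] : Fin 6 → ℤ) j = (1) * (![-1, -1, -1, 1, 1, 1] : Fin 6 → ℤ) i := by decide
      refine mem_spec_of_vec G _ (fun i => ((![-1, -1, -1, 1, 1, 1] : Fin 6 → ℤ) i : ℝ)) (fun h => ?_) ?_
      · have := congrFun h 0
        simp at this
      · have h2 := vec_cast (1) _ h1 _ rfl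
        simpa only [Int.cast_ofNat, Int.cast_neg, Int.cast_one, Int.cast_zero] using h2
    · have h1 : ∀ i, ∑ j, a i j * (![-1, 1, 0, -1, 1, 0] : Fin 6 → ℤ) j = (0) * (![-1, 1, 0, -1, 1, 0] : Fin 6 → ℤ) i := by decide
      refine mem_spec_of_vec G _ (fun i => ((![-1, 1, 0, -1, 1, 0] : Fin 6 → ℤ) i : ℝ)) (fun h => ?_) ?_
      · have := congrFun h 0
        simp at this
      · have h2 := vec_cast (0) _ h1 _ rfl
        simpa only [Int.cast_ofNat, Int.cast_neg, Int.cast_one, Int.cast_zero] using h2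
    · have h1 : ∀ i, ∑ j, a i j * (![1, -1, 0, -1, 1, 0] : Fin 6 → ℤ) j = (-2) * (![1, -1, 0, -1, 1, 0] : Fin 6 → ℤ) i := by decide
      refine mem_spec_of_vec G _ (fun i => ((![1, -1, 0, -1, 1, 0] : Fin 6 → ℤ) i : ℝ)) (fun h => ?_) ?_
      · have := congrFun h 0
        simp at this
      · have h2 := vec_cast (-2) _ h1 _ rfl
        simpa only [Int.cast_ofNat, Int.cast_neg, Int.cast_one, Int.cast_zero] using h2

theorem wr : WalkRegular G := by
  have hrec : ∀ l, G.adjMatrix ℤ ^ (l + 4) = 2 • G.adjMatrix ℤ ^ (l + 3) + 5 • G.adjMatrix ℤ ^ (l + 2) -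
      6 • G.adjMatrix ℤ ^ (l + 1) := by
    intro l
    have h4 : G.adjMatrix ℤ ^ 4 = 2 • G.adjMatrix ℤ ^ 3 + 5 • G.adjMatrix ℤ ^ 2 - 6 • G.adjMatrix ℤ := by
      rw [e4, e3, e2, adj_eq]
      ext i j
      simp only [Matrix.add_apply, Matrix.sub_apply, Matrix.smul_apply, Matrix.of_apply]
      revert i j
      decide
    rw [pow_add, h4, mul_sub, mul_add, mul_smul_comm, mul_smul_comm, mul_smul_comm, ← pow_add, ← pow_add,
      ← pow_succ]
  have hd : ∀ l, (∀ x y, (G.adjMatrix ℤ ^ l) x x = (G.adjMatrix ℤ ^ l) y y) ∧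
      (∀ x y, (G.adjMatrix ℤ ^ (l + 1)) x x = (G.adjMatrix ℤ ^ (l + 1)) y y) ∧
      (∀ x y, (G.adjMatrix ℤ ^ (l + 2)) x x = (G.adjMatrix ℤ ^ (l + 2)) y y) ∧
      (∀ x y, (G.adjMatrix ℤ ^ (l + 3)) x x = (G.adjMatrix ℤ ^ (l + 3)) y y) := by
    intro l
    induction l with
    | zero =>
      refine ⟨?_, ?_, ?_, ?_⟩
      · intro x y; simp
      · intro x y
        rw [zero_add, pow_one, adj_eq]
        have h : ∀ x y, a x x = a y y := by decide
        exact h x y
      · intro x y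
        rw [zero_add, e2]
        have h : ∀ x y, m2 x x = m2 y y := by decide
        exact h x y
      · intro x y
        rw [zero_add, e3]
        have h : ∀ x y, m3 x x = m3 y y := by decide
        exact h x y
    | succ l ih =>
      obtain ⟨h0, h1, h2, h3⟩ := ih
      refine ⟨h1, h2, h3, ?_⟩
      intro x y
      rw [show l + 1 + 3 = l + 4 by ring, hrec]
      simp only [Matrix.add_apply, Matrix.sub_apply, Matrix.smul_apply]
      rw [h1 x y, h2 x y, h3 x y]
  intro l x y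
  have := (hd l).1 x y
  rw [← adj_nat_cast, ← adj_nat_cast] at this
  exact_mod_cast this

/-- Negative answer to Q1 and Q2: there is a connected walk-regular graph (the triangular prism, `3`-regular on
`6` vertices) of diameter `D = 2` with `d + 1 = 4` distinct eigenvalues, so `D < d`, such that
`|Γ_D(x)| > p_d(k)` for every vertex `x` (in fact `|Γ_D(x)| = 2` and `p_d(k) = 2/13`). -/
theorem result :
    ∃ (G : SimpleGraph (Fin 6)) (_ : DecidableRel G.Adj) (k D d : ℕ) (p : ℕ → ℝ[X]),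
      G.Connected ∧ G.IsRegularOfDegree k ∧ WalkRegular G ∧ IsDiameter G D ∧
      DistinctEigenvalues G d ∧ D < d ∧ IsPredistance G d k p ∧
      ∀ x, (p d).eval (k : ℝ) < ((Finset.univ.filter fun y => G.dist x y = D).card : ℝ) := by
  have hdist : ∀ x y, G.dist x y = 2 ↔ y ∈ B G 2 x ∧ y ∉ B G 1 x := fun x y => dist_eq_iff G conn 1 x y
  refine ⟨G, inferInstance, 3, 2, 3, p, conn, ?_, wr, ⟨?_, 0, 4, ?_⟩, ?_, by norm_num, ⟨degs, ?_, ?_⟩, ?_⟩
  · intro v
    rw [← SimpleGraph.card_neighborFinset_eq_degree]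
    revert v
    decide
  · intro x y
    rw [dist_le_iff G conn]
    revert x y
    decide
  · rw [hdist]; decide
  · unfold DistinctEigenvalues
    rw [spec]
    have : ({3, 1, 0, -2} : Set ℝ) = ((({3, 1, 0, -2} : Finset ℝ)) : Set ℝ) := by simp
    rw [this, Set.ncard_coe_finset]
    rw [Finset.card_insert_of_notMem, Finset.card_insert_of_notMem, Finset.card_insert_of_notMem,
      Finset.card_singleton] <;> norm_num
  · intro i hi j hj hij
    rw [forms i hi j hj, if_neg hij]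
  · intro i hi
    rw [forms i hi i hi, if_pos rfl]
    norm_num
  · intro x
    have h1 : (Finset.univ.filter fun y => G.dist x y = 2).card = 2 := by
      have h2 : (Finset.univ.filter fun y => G.dist x y = 2) =
          Finset.univ.filter (fun y => y ∈ B G 2 x ∧ y ∉ B G 1 x) := by
        ext y
        simp only [Finset.mem_filter, Finset.mem_univ, true_and]
        exact hdist x y
      have h4 : ∀ x, (Finset.univ.filter (fun y => y ∈ B G 2 x ∧ y ∉ B G 1 x)).card = 2 := by decide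
      rw [h2, h4 x]
    rw [h1]
    have h3 : (p 3).eval ((3 : ℕ) : ℝ) = 2 / 13 := by
      unfold p P
      rw [eval_finsetSum]
      simp [c, Fin.sum_univ_succ]
      norm_num
    rw [h3]
    norm_num

end Pool.Agent.Results.MP_87d29b_co.PrismCounterexample
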