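import Mathlib
import Pool.Agent.X126.PreA

set_option autoImplicit false
set_option maxRecDepth 100000

open Polynomial Pool.Agent.X126.Pre

namespace Pool.Agent.Results.MP_87d29b_co.SumCounterexample

/-- The adjacency matrix of the graph. -/
def a : Fin 10 → Fin 10 → ℤ := ![![0, 0, 0, 1, 0, 0, 0, 0, 1, 1], ![0, 0, 1, 0, 1, 0, 0, 0, 1, 0], ![0, 1, 0, 0, 1, 1, 0, 0, 0, 0], ![1, 0, 0, 0, 0, 1, 0, 0, 0, 1], ![0, 1, 1, 0, 0, 0, 0, 1, 0, 0], ![0, 0, 1, 1, 0, 0, 1, 0, 0, 0], ![0, 0, 0, 0, 0, 1, 0, 1, 1, 0], ![0, 0, 0, 0, 1, 0, 1, 0, 0, 1], ![1, 1, 0, 0, 0, 0, 1, 0, 0, 0], ![1, 0, 0, 1, 0, 0, 0, 1, 0, 0]]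

def m2 : Fin 10 → Fin 10 → ℤ := ![![3, 1, 0, 1, 0, 1, 1, 1, 0, 1], ![1, 3, 1, 0, 1, 1, 1, 1, 0, 0], ![0, 1, 3, 1, 1, 0, 1, 1, 1, 0], ![1, 0, 1, 3, 0, 0, 1, 1, 1, 1], ![0, 1, 1, 0, 3, 1, 1, 0, 1, 1], ![1, 1, 0, 0, 1, 3, 0, 1, 1, 1], ![1, 1, 1, 1, 1, 0, 3, 0, 0, 1], ![1, 1, 1, 1, 0, 1, 0, 3, 1, 0], ![0, 0, 1, 1, 1, 1, 0, 1, 3, 1], ![1, 0, 0, 1, 1, 1, 1, 0, 1, 3]]

def m3 : Fin 10 → Fin 10 → ℤ := ![![2, 0, 2, 5, 2, 2, 2, 2, 5, 5], ![0, 2, 5, 2, 5, 2, 2, 2, 5, 2], ![2, 5, 2, 0, 5, 5, 2, 2, 2, 2], ![5, 2, 0, 2, 2, 5, 2, 2, 2, 5], ![2, 5, 5, 2, 2, 2, 2, 5, 2, 0], ![2, 2, 5, 5, 2, 0, 5, 2, 2, 2], ![2, 2, 2, 2, 2, 5, 0, 5, 5, 2], ![2, 2, 2, 2, 5, 2, 5, 0, 2, 5], ![5, 5, 2, 2, 2, 2, 5, 2, 0, 2], ![5, 2, 2, 5, 0, 2, 2, 5, 2, 2]]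

def m4 : Fin 10 → Fin 10 → ℤ := ![![15, 9, 4, 9, 4, 9, 9, 9, 4, 9], ![9, 15, 9, 4, 9, 9, 9, 9, 4, 4], ![4, 9, 15, 9, 9, 4, 9, 9, 9, 4], ![9, 4, 9, 15, 4, 4, 9, 9, 9, 9], ![4, 9, 9, 4, 15, 9, 9, 4, 9, 9], ![9, 9, 4, 4, 9, 15, 4, 9, 9, 9], ![9, 9, 9, 9, 9, 4, 15, 4, 4, 9], ![9, 9, 9, 9, 4, 9, 4, 15, 9, 4], ![4, 4, 9, 9, 9, 9, 4, 9, 15, 9], ![9, 4, 4, 9, 9, 9, 9, 4, 9, 15]]

def m5 : Fin 10 → Fin 10 → ℤ := ![![22, 12, 22, 33, 22, 22, 22, 22, 33, 33], ![12, 22, 33, 22, 33, 22, 22, 22, 33, 22], ![22, 33, 22, 12, 33, 33, 22, 22, 22, 22], ![33, 22, 12, 22, 22, 33, 22, 22, 22, 33], ![22, 33, 33, 22, 22, 22, 22, 33, 22, 12], ![22, 22, 33, 33, 22, 12, 33, 22, 22, 22], ![22, 22, 22, 22, 22, 33, 12, 33, 33, 22], ![22, 22, 22, 22, 33, 22, 33, 12, 22, 33], ![33, 33, 22, 22, 22, 22, 33, 22, 12, 22], ![33, 22, 22, 33, 12, 22, 22, 33, 22, 22]]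

/-- The graph. -/
def G : SimpleGraph (Fin 10) where
  Adj i j := a i j = 1
  symm := ⟨by decide⟩
  loopless := ⟨by decide⟩

instance : DecidableRel G.Adj := fun i j => inferInstanceAs (Decidable (a i j = 1))

theorem conn : G.Connected := connected_of_B G 3 (by decide)

theorem adj_eq : G.adjMatrix ℤ = Matrix.of a := by
  have h : ∀ i j, (if a i j = 1 then (1:ℤ) else 0) = a i j := by decide
  ext i j
  rw [SimpleGraph.adjMatrix_apply]
  exact h i j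

theorem e2 : G.adjMatrix ℤ ^ 2 = Matrix.of m2 := by
  rw [pow_two, adj_eq, of_mul]
  congr 1
  decide

theorem e3 : G.adjMatrix ℤ ^ 3 = Matrix.of m3 := by
  rw [pow_succ, e2, adj_eq, of_mul]
  congr 1
  decide

theorem e4 : G.adjMatrix ℤ ^ 4 = Matrix.of m4 := by
  rw [pow_succ, e3, adj_eq, of_mul]
  congr 1
  decide

theorem e5 : G.adjMatrix ℤ ^ 5 = Matrix.of m5 := by
  rw [pow_succ, e4, adj_eq, of_mul]
  congr 1
  decide

theorem t0 : Matrix.trace (G.adjMatrix ℝ ^ 0) = 10 := by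
  rw [pow_zero, Matrix.trace_one]; simp

theorem t1 : Matrix.trace (G.adjMatrix ℝ ^ 1) = 0 := by
  rw [trace_cast, pow_one, adj_eq, of_trace, show trF a = 0 by decide]; norm_num

theorem t2 : Matrix.trace (G.adjMatrix ℝ ^ 2) = 30 := by
  rw [trace_cast, e2, of_trace, show trF m2 = 30 by decide]; norm_num

theorem t3 : Matrix.trace (G.adjMatrix ℝ ^ 3) = 12 := by
  rw [trace_cast, e3, of_trace, show trF m3 = 12 by decide]; norm_num

theorem t4 : Matrix.trace (G.adjMatrix ℝ ^ 4) = 150 := by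
  rw [trace_cast, e4, of_trace, show trF m4 = 150 by decide]; norm_num

theorem t5 : Matrix.trace (G.adjMatrix ℝ ^ 5) = 180 := by
  rw [trace_cast, e5, of_trace, show trF m5 = 180 by decide]; norm_num

theorem t6 : Matrix.trace (G.adjMatrix ℝ ^ 6) = 990 := by
  have h : G.adjMatrix ℤ ^ 6 = G.adjMatrix ℤ ^ 4 * G.adjMatrix ℤ ^ 2 := by rw [← pow_add]
  rw [trace_cast, h, e4, e2, of_mul, of_trace,
    show trF (mulF m4 m2) = 990 by decide]; norm_num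

theorem t7 : Matrix.trace (G.adjMatrix ℝ ^ 7) = 1932 := by
  have h : G.adjMatrix ℤ ^ 7 = G.adjMatrix ℤ ^ 4 * G.adjMatrix ℤ ^ 3 := by rw [← pow_add]
  rw [trace_cast, h, e4, e3, of_mul, of_trace,
    show trF (mulF m4 m3) = 1932 by decide]; norm_num

theorem t8 : Matrix.trace (G.adjMatrix ℝ ^ 8) = 7590 := by
  have h : G.adjMatrix ℤ ^ 8 = G.adjMatrix ℤ ^ 4 * G.adjMatrix ℤ ^ 4 := by rw [← pow_add]
  rw [trace_cast, h, e4, of_mul, of_trace,
    show trF (mulF m4 m4) = 7590 by decide]; norm_num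

/-- coefficients of the predistance polynomials -/
noncomputable def c : ℕ → Fin 5 → ℝ
  | 0 => ![1, 0, 0, 0, 0]
  | 1 => ![0, 1, 0, 0, 0]
  | 2 => ![-60 / 23, -8 / 23, 20 / 23, 0, 0]
  | 3 => ![25929 / 21551, -33835 / 21551, -11725 / 21551, 335 / 937, 0]
  | 4 => ![1317 / 937, 860 / 937, -5905 / 3748, -335 / 937, 1 / 4]
  | _ => 0

noncomputable def p (i : ℕ) : ℝ[X] := P 5 (c i)

theorem degs : ∀ i ≤ 4, (p i).degree = (i : WithBot ℕ) := by
  intro i hi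
  interval_cases i
  · have h : p 0 = C (1 : ℝ) * X ^ 0 := by
      simp [p, P, c, Fin.sum_univ_succ]
    rw [h]
    compute_degree!
  · have h : p 1 = C (0 : ℝ) * X ^ 0 + C (1 : ℝ) * X ^ 1 := by
      simp [p, P, c, Fin.sum_univ_succ]; try ring
    rw [h]
    compute_degree!
  · have h : p 2 = C (-60 / 23 : ℝ) * X ^ 0 + C (-8 / 23 : ℝ) * X ^ 1 + C (20 / 23 : ℝ) * X ^ 2 := by
      simp [p, P, c, Fin.sum_univ_succ]; try ring
    rw [h]
    compute_degree!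
  · have h : p 3 = C (25929 / 21551 : ℝ) * X ^ 0 + C (-33835 / 21551 : ℝ) * X ^ 1 + C (-11725 / 21551 : ℝ) * X ^ 2 + C (335 / 937 : ℝ) * X ^ 3 := by
      simp [p, P, c, Fin.sum_univ_succ]; try ring
    rw [h]
    compute_degree!
  · have h : p 4 = C (1317 / 937 : ℝ) * X ^ 0 + C (860 / 937 : ℝ) * X ^ 1 + C (-5905 / 3748 : ℝ) * X ^ 2 + C (-335 / 937 : ℝ) * X ^ 3 + C (1 / 4 : ℝ) * X ^ 4 := by
      simp [p, P, c, Fin.sum_univ_succ]; try ring
    rw [h]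
    compute_degree!

theorem forms : ∀ i ≤ 4, ∀ j ≤ 4, form G (p i) (p j) = if i = j then (p i).eval 3 else 0 := by
  intro i hi j hj
  have hform : form G (p i) (p j) = (∑ s, ∑ t, c i s * c j t *
      Matrix.trace ((G.adjMatrix ℝ) ^ ((s : ℕ) + (t : ℕ)))) / (Fintype.card (Fin 10) : ℝ) := form_P G _ _ _
  have heval : (p i).eval 3 = ∑ s, c i s * 3 ^ (s : ℕ) := by
    unfold p P
    rw [eval_finsetSum]
    refine Finset.sum_congr rfl fun s _ => ?_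
    simp
  rw [hform, heval]
  interval_cases i <;> interval_cases j <;>
    simp [c, Fin.sum_univ_succ, t0, t1, t2, t3, t4, t5, t6, t7, t8] <;> norm_num

theorem vec_cast (l : ℤ) (v : Fin 10 → ℤ) (h : ∀ i, ∑ j, a i j * v j = l * v i)
    (w : Fin 10 → ℝ) (hw : w = fun i => (v i : ℝ)) : (G.adjMatrix ℝ).mulVec w = (l : ℝ) • w := by
  subst hw
  funext i
  rw [adj_cast, adj_eq]
  have h2 := congrArg (fun z : ℤ => (z : ℝ)) (h i)
  simp only [Matrix.mulVec, dotProduct, Matrix.map_apply, Matrix.of_apply, Pi.smul_apply, smul_eq_mul]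
  push_cast at h2
  simpa using h2

theorem spec : spectrum ℝ (G.adjMatrix ℝ) = {3, 2, 1, -1, -2} := by
  apply Set.Subset.antisymm
  · intro lam hlam
    have hq : aeval (G.adjMatrix ℝ) ((X - C (3)) * (X - C (2)) * (X - C (1)) * (X - C (-1)) * (X - C (-2)) : ℝ[X]) = 0 := by
      have hZ : G.adjMatrix ℤ ^ 5 = (12 : ℤ) • G.adjMatrix ℤ ^ 0 + (-4 : ℤ) • G.adjMatrix ℤ ^ 1 + (-15 : ℤ) • G.adjMatrix ℤ ^ 2 + (5 : ℤ) • G.adjMatrix ℤ ^ 3 + (3 : ℤ) • G.adjMatrix ℤ ^ 4 := by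
        rw [e5, e4, e3, e2, pow_one, pow_zero, adj_eq]
        ext i j
        simp only [Matrix.add_apply, Matrix.smul_apply, Matrix.of_apply, Matrix.one_apply]
        revert i j
        decide
      have hR : G.adjMatrix ℝ ^ 5 = (12 : ℝ) • G.adjMatrix ℝ ^ 0 + (-4 : ℝ) • G.adjMatrix ℝ ^ 1 + (-15 : ℝ) • G.adjMatrix ℝ ^ 2 + (5 : ℝ) • G.adjMatrix ℝ ^ 3 + (3 : ℝ) • G.adjMatrix ℝ ^ 4 := by
        have h2 := congrArg (Int.castRingHom ℝ).mapMatrix hZ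
        simp only [map_add, map_pow, map_zsmul] at h2
        have h3 : (Int.castRingHom ℝ).mapMatrix (G.adjMatrix ℤ) = G.adjMatrix ℝ := (adj_cast G).symm
        rw [h3] at h2
        rw [h2]
        simp only [← Int.cast_smul_eq_zsmul ℝ]
        norm_num
      have h4 : ((X - C (3)) * (X - C (2)) * (X - C (1)) * (X - C (-1)) * (X - C (-2)) : ℝ[X]) = X ^ 5 - (C (12 : ℝ) * X ^ 0 + C (-4 : ℝ) * X ^ 1 + C (-15 : ℝ) * X ^ 2 + C (5 : ℝ) * X ^ 3 + C (3 : ℝ) * X ^ 4) := by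
        simp only [map_neg, map_ofNat, map_one, map_zero]
        ring
      rw [h4]
      simp only [map_sub, map_add, map_mul, map_pow, aeval_X, aeval_C, ← Algebra.smul_def]
      rw [hR, sub_self]
    have h5 := spec_sub G _ hq lam hlam
    simp only [eval_mul, eval_sub, eval_X, eval_C, mul_eq_zero, sub_eq_zero] at h5
    simp only [Set.mem_insert_iff, Set.mem_singleton_iff]
    tauto
  · intro lam hlam
    simp only [Set.mem_insert_iff, Set.mem_singleton_iff] at hlam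
    rcases hlam with rfl | rfl | rfl | rfl | rfl
    · have h1 : ∀ i, ∑ j, a i j * (![1, 1, 1, 1, 1, 1, 1, 1, 1, 1] : Fin 10 → ℤ) j = (3) * (![1, 1, 1, 1, 1, 1, 1, 1, 1, 1] : Fin 10 → ℤ) i := by decide
      refine mem_spec_of_vec G _ (fun i => ((![1, 1, 1, 1, 1, 1, 1, 1, 1, 1] : Fin 10 → ℤ) i : ℝ)) (fun h => ?_) ?_
      · have := congrFun h 0
        simp at this
      · have h2 := vec_cast (3) _ h1 _ rfl
        simpa only [Int.cast_ofNat, Int.cast_neg, Int.cast_one, Int.cast_zero] using h2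
    · have h1 : ∀ i, ∑ j, a i j * (![1, -1, -1, 1, -1, 0, 0, 0, 0, 1] : Fin 10 → ℤ) j = (2) * (![1, -1, -1, 1, -1, 0, 0, 0, 0, 1] : Fin 10 → ℤ) i := by decide
      refine mem_spec_of_vec G _ (fun i => ((![1, -1, -1, 1, -1, 0, 0, 0, 0, 1] : Fin 10 → ℤ) i : ℝ)) (fun h => ?_) ?_
      · have := congrFun h 0
        simp at this
      · have h2 := vec_cast (2) _ h1 _ rfl
        simpa only [Int.cast_ofNat, Int.cast_neg, Int.cast_one, Int.cast_zero] using h2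
    · have h1 : ∀ i, ∑ j, a i j * (![-1, -1, -1, -1, 0, 0, 2, 2, 0, 0] : Fin 10 → ℤ) j = (1) * (![-1, -1, -1, -1, 0, 0, 2, 2, 0, 0] : Fin 10 → ℤ) i := by decide
      refine mem_spec_of_vec G _ (fun i => ((![-1, -1, -1, -1, 0, 0, 2, 2, 0, 0] : Fin 10 → ℤ) i : ℝ)) (fun h => ?_) ?_
      · have := congrFun h 0
        simp at this
      · have h2 := vec_cast (1) _ h1 _ rfl
        simpa only [Int.cast_ofNat, Int.cast_neg, Int.cast_one, Int.cast_zero] using h2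
    · have h1 : ∀ i, ∑ j, a i j * (![-1, 1, -1, 1, 0, 0, 0, 0, 0, 0] : Fin 10 → ℤ) j = (-1) * (![-1, 1, -1, 1, 0, 0, 0, 0, 0, 0] : Fin 10 → ℤ) i := by decide
      refine mem_spec_of_vec G _ (fun i => ((![-1, 1, -1, 1, 0, 0, 0, 0, 0, 0] : Fin 10 → ℤ) i : ℝ)) (fun h => ?_) ?_
      · have := congrFun h 0
        simp at this
      · have h2 := vec_cast (-1) _ h1 _ rfl
        simpa only [Int.cast_ofNat, Int.cast_neg, Int.cast_one, Int.cast_zero] using h2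
    · have h1 : ∀ i, ∑ j, a i j * (![1, 1, -2, -2, 0, 3, -2, 1, 0, 0] : Fin 10 → ℤ) j = (-2) * (![1, 1, -2, -2, 0, 3, -2, 1, 0, 0] : Fin 10 → ℤ) i := by decide
      refine mem_spec_of_vec G _ (fun i => ((![1, 1, -2, -2, 0, 3, -2, 1, 0, 0] : Fin 10 → ℤ) i : ℝ)) (fun h => ?_) ?_
      · have := congrFun h 0
        simp at this
      · have h2 := vec_cast (-2) _ h1 _ rfl
        simpa only [Int.cast_ofNat, Int.cast_neg, Int.cast_one, Int.cast_zero] using h2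

/-- There is a connected `3`-regular graph on `10` vertices of diameter `D = 3` with `d + 1 = 5` distinct
eigenvalues, so `D < d`, and a vertex `x` such that `|Γ_D(x)| > ∑_{i=D}^{d} p_i(k)` (in fact `|Γ_D(x)| = 2`). As all
`p_i(k)` are positive, also `|Γ_D(x)| > p_d(k)`, which is stated too. -/
theorem result :
    ∃ (G : SimpleGraph (Fin 10)) (_ : DecidableRel G.Adj) (k D d : ℕ) (p : ℕ → ℝ[X]) (x : Fin 10),
      G.Connected ∧ G.IsRegularOfDegree k ∧ IsDiameter G D ∧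
      DistinctEigenvalues G d ∧ D < d ∧ IsPredistance G d k p ∧
      ∑ i ∈ Finset.Icc D d, (p i).eval (k : ℝ) <
        ((Finset.univ.filter fun y => G.dist x y = D).card : ℝ) ∧
      (p d).eval (k : ℝ) < ((Finset.univ.filter fun y => G.dist x y = D).card : ℝ) := by
  have hdist : ∀ x y, G.dist x y = 3 ↔ y ∈ B G 3 x ∧ y ∉ B G 2 x := fun x y => dist_eq_iff G conn 2 x y
  have h1 : (Finset.univ.filter fun y => G.dist 0 y = 3).card = 2 := by
    have h2 : (Finset.univ.filter fun y => G.dist 0 y = 3) =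
        Finset.univ.filter (fun y => y ∈ B G 3 0 ∧ y ∉ B G 2 0) := by
      ext y
      simp only [Finset.mem_filter, Finset.mem_univ, true_and]
      exact hdist 0 y
    have h4 : (Finset.univ.filter (fun y => y ∈ B G 3 0 ∧ y ∉ B G 2 0)).card = 2 := by decide
    rw [h2, h4]
  have h3 : (p 3).eval ((3 : ℕ) : ℝ) = 26934 / 21551 := by
    unfold p P
    rw [eval_finsetSum]
    simp [c, Fin.sum_univ_succ]
    norm_num
  have h4 : (p 4).eval ((3 : ℕ) : ℝ) = 540 / 937 := by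
    unfold p P
    rw [eval_finsetSum]
    simp [c, Fin.sum_univ_succ]
    norm_num
  refine ⟨G, inferInstance, 3, 3, 4, p, 0, conn, ?_, ⟨?_, 0, 2, ?_⟩, ?_, by norm_num, ⟨degs, ?_, ?_⟩, ?_, ?_⟩
  · intro v
    rw [← SimpleGraph.card_neighborFinset_eq_degree]
    revert v
    decide
  · intro x y
    rw [dist_le_iff G conn]
    revert x y
    decide
  · rw [hdist]; decide
  · unfold DistinctEigenvalues
    rw [spec]
    have : ({3, 2, 1, -1, -2} : Set ℝ) = ((({3, 2, 1, -1, -2} : Finset ℝ)) : Set ℝ) := by simp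
    rw [this, Set.ncard_coe_finset]
    rw [Finset.card_insert_of_notMem, Finset.card_insert_of_notMem, Finset.card_insert_of_notMem,
      Finset.card_insert_of_notMem, Finset.card_singleton] <;> norm_num
  · intro i hi j hj hij
    rw [forms i hi j hj, if_neg hij]
  · intro i hi
    rw [forms i hi i hi, if_pos rfl]
    norm_num
  · rw [h1, show Finset.Icc 3 4 = {3, 4} from rfl, Finset.sum_pair (by norm_num), h3, h4]
    norm_num
  · rw [h1, h4]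
    norm_num

end Pool.Agent.Results.MP_87d29b_co.SumCounterexample
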